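import Pool.Agent.Work.MP_2ad852_ag.GS.Stmts

/-!
# Block GX: exact comparison in all degrees `e ≤ 2 δ - max 2 (n - 2)`, for every power of `z`

`N' t = (Mk z 1 t).card` is the number of monomials of degree `t` in the `n - 1` variables `≠ z`.
-/

namespace Pool.Agent.Work.MP_2ad852_ag.GX

open MvPolynomial Finset Pool.Agent.Work.MP_2ad852_ag.GF Pool.Agent.Work.MP_2ad852_ag.GS

/-- half of the exponent (rounded down), without the variable `z` -/
noncomputable def hf {n : ℕ} (z : Fin n) (p : Fin n →₀ ℕ) : Fin n →₀ ℕ :=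
  (p.mapRange (fun a => a / 2) rfl).erase z

/-- the column `m'`: monomials `c` of degree `s - m'` without `z` with `z ^ m' * c` not in `L` -/
noncomputable def col {n : ℕ} (z : Fin n) (s : ℕ) (L : (Fin n →₀ ℕ) → Prop) (m' : ℕ) :
    Finset (Fin n →₀ ℕ) := by
  classical
  exact (Mk z 1 (s - m')).filter (fun c => ¬ L (Finsupp.single z m' + c))

/-- the monomials of degree `e` with `z`-exponent `m` and half exponent in `H` -/
noncomputable def fib {n : ℕ} (z : Fin n) (e m : ℕ) (H : Finset (Fin n →₀ ℕ)) :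
    Finset (Fin n →₀ ℕ) :=
  (Mt n e).filter (fun p => p z = m ∧ hf z p ∈ H)

def S_Fib : Prop :=
  ∀ (n : ℕ) (z : Fin n) (e m j : ℕ) (H : Finset (Fin n →₀ ℕ)), H ⊆ Mk z 1 j → m + 2 * j ≤ e →
    (fib z e m H).card = (n - 1).choose (e - m - 2 * j) * H.card

/-- summation of `S_Fib` over all half exponents -/
def S_FibSum : Prop :=
  ∀ (n : ℕ) (z : Fin n) (t : ℕ),
    (Mk z 1 t).card = ∑ j ∈ Finset.range (t / 2 + 1), (n - 1).choose (t - 2 * j) * (Mk z 1 j).card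

/-- the transport lemma for windows which are intervals -/
def S_Hall : Prop :=
  ∀ (ι : Type) (S : Finset ι) (J : ℕ) (lo hi : ι → ℕ) (M B : ι → ℝ) (c f : ℕ → ℝ),
    (∀ i ∈ S, lo i ≤ hi i ∧ hi i ≤ J) → (∀ i ∈ S, 0 ≤ M i) → (∀ j, 0 ≤ f j) →
    (∀ a b, a ≤ b → b ≤ J →
      ∑ i ∈ S.filter (fun i => a ≤ lo i ∧ hi i ≤ b), M i ≤ ∑ j ∈ Finset.Icc a b, c j) →
    (∀ i ∈ S, ∀ j, lo i ≤ j → j ≤ hi i → B i ≤ M i * f j) →
    ∑ i ∈ S, B i ≤ ∑ j ∈ Finset.range (J + 1), c j * f j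

/-- weighted number of `(m, w)` with `m + w = j`, `m ≤ β`, weight `N.choose w` -/
def cnt (N j β : ℕ) : ℕ :=
  ∑ w ∈ Finset.range (N + 1), if w ≤ j ∧ j ≤ w + β then N.choose w else 0

def S_Cnt : Prop :=
  (∀ N j β, N ≤ j → cnt N (j + 1) β ≤ cnt N j β) ∧
  (∀ N D β, N ≤ D + 1 → 2 ≤ D → cnt N (D + 2) β ≤ cnt N D β + cnt N (D - 2) β)

/-- the sources: pairs `(m, j)`, `m` the exponent of `z` and `j` the degree of the half exponent -/
def Src (k e : ℕ) : Finset (ℕ × ℕ) :=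
  (Finset.range k ×ˢ Finset.range (e + 1)).filter (fun x => x.1 + 2 * x.2 ≤ e)

/-- the mass of a source -/
def mass (N' : ℕ → ℕ) (n e : ℕ) (x : ℕ × ℕ) : ℕ := (n - 1).choose (e - x.1 - 2 * x.2) * N' x.2

/-- Chebyshev form of the capacity condition for one `β`; `β'` is the largest `m` -/
def S_Cheb : Prop :=
  ∀ (N' : ℕ → ℕ) (n s D β β' a : ℕ), 3 ≤ n → n ≤ D + 2 → 2 ≤ D → (∀ i j, i ≤ j → N' i ≤ N' j) →
    β ≤ s → (β' = β ∨ β = s) → a ≤ β →
    (∑ x ∈ (Src (β' + 1) (2 * s + D)).filter (fun x => a ≤ s - x.2), mass N' n (2 * s + D) x) *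
        (∑ i ∈ Finset.range (β + 1), N' (s - i)) ≤
      (∑ x ∈ Src (β' + 1) (2 * s + D), mass N' n (2 * s + D) x) *
        (∑ i ∈ Finset.Icc a β, N' (s - i))

/-- the exact comparison -/
def S_CombX : Prop :=
  ∀ (n : ℕ) (z : Fin n) (k s D : ℕ) (L : (Fin n →₀ ℕ) → Prop), 3 ≤ n → 1 ≤ k →
    (∀ q r, L q → L (q + r)) → n ≤ D + 2 → 2 ≤ D →
    (Bad2 z k (2 * s + D) L).card * (Mk z k s).card ≤
      (Std z k s L).card * (Mk z k (2 * s + D)).card

end Pool.Agent.Work.MP_2ad852_ag.GX
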