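import Pool.Agent.Work.MP_2ad852_ag.Bd.B02

/-!
# The range theorem without hypotheses
-/

namespace Pool.Agent.Work.MP_2ad852_ag.GX

open MvPolynomial Finset Pool.Agent.Work.MP_2ad852_ag.GF Pool.Agent.Work.MP_2ad852_ag.GS

theorem combX : S_CombX :=
  pr_CombX pr_Fib (pr_FibSum pr_Fib) pr_Hall (pr_Cheb pr_Cnt) pr_NMP pr_Ratio pr_MkNumB

end Pool.Agent.Work.MP_2ad852_ag.GX
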